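import Pool.Agent.Q33.QR.Small

/-!
# Lucas sequences `U_{(p-1)/4}(b,-1)`, `V_{(p-1)/4}(b,-1)` modulo `p` when `b ≡ 4 mod 8`
-/

set_option autoImplicit false

namespace Pool.Agent.Results.MP_1f3cf9_nt.LucasFourModEight

open Pool.Agent.Q33.QR

/-- the Lucas sequence `U_n(b,c)` -/
def U (b c : ℤ) : ℕ → ℤ
  | 0 => 0
  | 1 => 1
  | n + 2 => b * U b c (n + 1) - c * U b c n

/-- the Lucas sequence `V_n(b,c)` -/
def V (b c : ℤ) : ℕ → ℤ
  | 0 => 2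
  | 1 => b
  | n + 2 => b * V b c (n + 1) - c * V b c n

/-- `m` is nonzero and its odd part `m0` (where `m = 2 ^ k * m0`, `m0` odd) is `1` modulo `4` -/
def OddPartOne (m : ℤ) : Prop := ∃ (k : ℕ) (m0 : ℤ), m = 2 ^ k * m0 ∧ m0 % 4 = 1

theorem result (p : ℕ) [Fact p.Prime] (hp4 : p % 4 = 1) (b : ℤ) (hb : b % 8 = 4)
    (hbp : (p : ℤ) ≠ 1 + b ^ 2 / 4) (c d x y : ℤ) (hcd : c ^ 2 + d ^ 2 = (p : ℤ))
    (hxy : x ^ 2 + (1 + b ^ 2 / 4) * y ^ 2 = (p : ℤ)) (hc : c % 4 = 1)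
    (hd : OddPartOne d) (hx : OddPartOne x) (hy : OddPartOne y) :
    ((x % 4 = 2 → (U b (-1) ((p - 1) / 4) : ZMod p) =
        (-1) ^ ((b + 4) / 8 + d / 4) * ((y : ZMod p) / x)) ∧
      (y % 4 = 2 → (U b (-1) ((p - 1) / 4) : ZMod p) = ((d : ZMod p) * y) / ((c : ZMod p) * x)) ∧
      (4 ∣ x * y → (U b (-1) ((p - 1) / 4) : ZMod p) = 0)) ∧
    ((4 ∣ y → (V b (-1) ((p - 1) / 4) : ZMod p) = 2 * (-1) ^ (d / 4 + y / 4)) ∧
      (4 ∣ x → (V b (-1) ((p - 1) / 4) : ZMod p) =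
        2 * (-1) ^ ((b - 4) / 8 + x / 4) * ((d : ZMod p) / c)) ∧
      (¬ 4 ∣ x * y → (V b (-1) ((p - 1) / 4) : ZMod p) = 0)) := by
  obtain ⟨b1, rfl⟩ : ∃ b1, b = 8 * b1 + 4 := ⟨b / 8, by omega⟩
  obtain ⟨c1, rfl⟩ : ∃ c1, c = 4 * c1 + 1 := ⟨c / 4, by omega⟩
  have hq : (8 * b1 + 4) ^ 2 / 4 = (4 * b1 + 2) ^ 2 := by
    have : (8 * b1 + 4) ^ 2 = 4 * ((4 * b1 + 2) ^ 2) := by ring
    rw [this]
    omega
  have hb8 : (8 * b1 + 4 + 4) / 8 = b1 + 1 := by omega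
  have hb8' : (8 * b1 + 4 - 4) / 8 = b1 := by omega
  rw [hq] at hxy
  rw [hb8, hb8']
  have hU0 : U (8 * b1 + 4) (-1) 0 = 0 := rfl
  have hU1 : U (8 * b1 + 4) (-1) 1 = 1 := rfl
  have hU : ∀ n, U (8 * b1 + 4) (-1) (n + 2) = (8 * b1 + 4) * U (8 * b1 + 4) (-1) (n + 1) +
      U (8 * b1 + 4) (-1) n := by
    intro n
    rw [U]
    ring
  have hV0 : V (8 * b1 + 4) (-1) 0 = 2 := rfl
  have hV1 : V (8 * b1 + 4) (-1) 1 = 8 * b1 + 4 := rfl
  have hV : ∀ n, V (8 * b1 + 4) (-1) (n + 2) = (8 * b1 + 4) * V (8 * b1 + 4) (-1) (n + 1) +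
      V (8 * b1 + 4) (-1) n := by
    intro n
    rw [V]
    ring
  have hx0 : x ≠ 0 := npart_ne hx
  have hy0 : y ≠ 0 := npart_ne hy
  have hpd : (4 * c1 + 1) ^ 2 + d ^ 2 = x ^ 2 + (1 + (4 * b1 + 2) ^ 2) * y ^ 2 := by
    rw [hcd, hxy]
  have mk' : ∀ (δ x y n v Y l : ℤ), d = 2 * δ → (4 * c1 + 1) ^ 2 + d ^ 2 = (p : ℤ) →
      x ^ 2 + (1 + (4 * b1 + 2) ^ 2) * y ^ 2 = (p : ℤ) → x ≠ 0 → y ≠ 0 → (l = 1 ∨ l = 2) →
      l * n = 4 * c1 + 1 + x → l * v = 2 * δ - (4 * b1 + 2) * y → l * Y = 1 * y →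
      Data p c1 δ x y (4 * b1 + 2) 1 (8 * b1 + 4) n v Y l (U (8 * b1 + 4) (-1))
        (V (8 * b1 + 4) (-1)) := by
    intro δ x y n v Y l h1 h2 h3 h4 h5 h6 h7 h8 h9
    refine ⟨?_, ?_, h4, h5, Or.inl rfl, h6, by ring, h7, h8, h9, hU0, hU1, hU, hV0, hV1, hV⟩
    · rw [← h2, h1]
    · rw [← h3]
      ring
  rcases npart_cases hx with ⟨x1, rfl⟩ | ⟨ξ1, rfl⟩ | ⟨kx, wx, hxw⟩
  · -- `x` odd
    rcases npart_cases hy with ⟨w, rfl⟩ | ⟨w, rfl⟩ | ⟨ky, w, hyw⟩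
    · exfalso
      have h1 : (p : ℤ) = 2 * (8 * x1 ^ 2 + 4 * x1 + 1 + 8 * w ^ 2 + 4 * w +
        (8 * b1 ^ 2 + 8 * b1 + 2) * (4 * w + 1) ^ 2) := by
        rw [← hxy]
        ring
      omega
    · -- `2 ∥ y`
      rcases npart_cases hd with ⟨z, rfl⟩ | ⟨δ1, rfl⟩ | ⟨kd, z, hdz⟩
      · exfalso
        ring_nf at hpd
        omega
      · have hN : Odd ((p - 1) / 4) := par_odd hcd
        have D := mk' (4 * δ1 + 1) (4 * x1 + 1) (2 * (4 * w + 1)) (2 * (c1 + x1) + 1)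
          (4 * δ1 + 1 - 2 * (2 * b1 + 1) * (4 * w + 1)) (4 * w + 1) 2 rfl hcd hxy hx0 hy0
          (Or.inr rfl) (by ring) (by ring) (by ring)
        have hpN := data_norm p D
        have hE := case_C1 p (prime_of_norm (Fact.out) hpN) hpN (x1 := x1) (β := 2 * b1 + 1)
          (w := w) (data_pY p D) (by linear_combination hpd)
        obtain ⟨h1, h2⟩ := final_oe p D hN hE
        have h4 : ¬ 4 ∣ (4 * x1 + 1) * (2 * (4 * w + 1)) := by
          have : (4 * x1 + 1) * (2 * (4 * w + 1)) = 4 * (2 * x1 * (4 * w + 1) + 2 * w) + 2 := by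
            ring
          omega
        refine ⟨⟨fun h => by omega, fun _ => ?_, fun h => absurd h h4⟩,
          ⟨fun h => by omega, fun h => by omega, fun _ => h1⟩⟩
        rw [h2]
        have hs : ((-1 : ZMod p)) ^ (2 * b1 + 1) = (-1) ^ (1 : ℤ) := sgn ⟨b1, by ring⟩
        rw [hs, zpow_one]
        push_cast
        ring
      · exfalso
        rw [hdz] at hpd
        obtain ⟨r, hr⟩ : ∃ r : ℤ, r = 2 ^ kd * (4 * z + 1) := ⟨_, rfl⟩
        rw [← hr] at hpd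
        ring_nf at hpd
        omega
    · -- `4 ∣ y`
      obtain ⟨y1, hy1⟩ : ∃ y1 : ℤ, y1 = 2 ^ ky * (4 * w + 1) := ⟨_, rfl⟩
      rw [← hy1] at hyw
      subst hyw
      obtain ⟨d1, rfl⟩ : ∃ d1, d = 4 * d1 := by
        rcases npart_cases hd with ⟨z, rfl⟩ | ⟨δ1, rfl⟩ | ⟨kd, z, hdz⟩
        · exfalso
          ring_nf at hpd
          omega
        · exfalso
          ring_nf at hpd
          omega
        · exact ⟨_, hdz⟩
      have e4 : 4 * d1 = 2 * (2 * d1) := by ring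
      have hN : Even ((p - 1) / 4) := by
        rw [e4] at hcd
        exact par_even hcd
      have D := mk' (2 * d1) (4 * x1 + 1) (4 * y1) (2 * (c1 + x1) + 1)
        (2 * (d1 - (4 * b1 + 2) * y1)) (2 * y1) 2 e4 hcd hxy hx0 hy0 (Or.inr rfl)
        (by ring) (by ring) (by ring)
      have hpN := data_norm p D
      have hE := case_B p (prime_of_norm (Fact.out) hpN) hpN (x1 := x1) (y1 := y1)
        (B := 4 * b1 + 2) (w := w) (s := ky + 1) (by omega) (by rw [hy1]; ring)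
        (data_pY p D) (by linear_combination hpd)
      obtain ⟨h1, h2⟩ := final_ee p D hN hE
      have h4 : (4 : ℤ) ∣ (4 * x1 + 1) * (4 * y1) := ⟨(4 * x1 + 1) * y1, by ring⟩
      refine ⟨⟨fun h => by omega, fun h => by omega, fun _ => h2⟩,
        ⟨fun _ => ?_, fun h => by omega, fun h => absurd h4 h⟩⟩
      rw [h1]
      have e1 : 4 * d1 / 4 = d1 := by omega
      have e2 : 4 * y1 / 4 = y1 := by omega
      rw [e1, e2]
  · -- `2 ∥ x`
    rcases npart_cases hy with ⟨w, rfl⟩ | ⟨w, rfl⟩ | ⟨ky, w, hyw⟩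
    · obtain ⟨d1, rfl⟩ : ∃ d1, d = 4 * d1 := by
        rcases npart_cases hd with ⟨z, rfl⟩ | ⟨δ1, rfl⟩ | ⟨kd, z, hdz⟩
        · exfalso
          ring_nf at hpd
          omega
        · exfalso
          ring_nf at hpd
          omega
        · exact ⟨_, hdz⟩
      have e4 : 4 * d1 = 2 * (2 * d1) := by ring
      have hN : Even ((p - 1) / 4) := by
        rw [e4] at hcd
        exact par_even hcd
      have D := mk' (2 * d1) (2 * (4 * ξ1 + 1)) (4 * w + 1) (2 * (2 * c1 + (4 * ξ1 + 1)) + 1)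
        (2 * (2 * d1 - (2 * b1 + 1) * (4 * w + 1))) (4 * w + 1) 1 e4 hcd hxy hx0 hy0
        (Or.inl rfl) (by ring) (by ring) (by ring)
      have hpN := data_norm p D
      have hE := case_A p (prime_of_norm (Fact.out) hpN) hpN (ξ := 4 * ξ1 + 1) (β := 2 * b1 + 1)
        (w := w) (data_pY p D) (by linear_combination hpd)
      have hE2 := hE.trans (cast4 (b := 1 + 2 * (b1 + 1 + d1))
        (-4 * ξ1 ^ 2 - 3 * ξ1 - d1 ^ 2 - 3 * d1 - 2 * d1 * b1 - 4 * ξ1 * d1 - 1) (by ring))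
      obtain ⟨h1, h2⟩ := final_eo p D hN hE2
      have h4 : ¬ 4 ∣ (2 * (4 * ξ1 + 1)) * (4 * w + 1) := by
        have : (2 * (4 * ξ1 + 1)) * (4 * w + 1) = 4 * (2 * ξ1 * (4 * w + 1) + 2 * w) + 2 := by
          ring
        omega
      refine ⟨⟨fun _ => ?_, fun h => by omega, fun h => absurd h h4⟩,
        ⟨fun h => by omega, fun h => by omega, fun _ => h1⟩⟩
      rw [h2]
      have e1 : 4 * d1 / 4 = d1 := by omega
      rw [e1, Int.cast_one, one_mul]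
    · exfalso
      have h1 : (p : ℤ) = 2 * (2 * (4 * ξ1 + 1) ^ 2 +
          (1 + (4 * b1 + 2) ^ 2) * (2 * (4 * w + 1) ^ 2)) := by
        rw [← hxy]
        ring
      omega
    · exfalso
      have h1 : (p : ℤ) = 2 * (2 * (4 * ξ1 + 1) ^ 2 + (1 + (4 * b1 + 2) ^ 2) *
          (8 * (2 ^ ky * (4 * w + 1)) ^ 2)) := by
        rw [← hxy, hyw]
        ring
      omega
  · -- `4 ∣ x`
    obtain ⟨ξ1, hξ1⟩ : ∃ ξ1 : ℤ, ξ1 = 2 ^ kx * (4 * wx + 1) := ⟨_, rfl⟩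
    rw [← hξ1] at hxw
    subst hxw
    rcases npart_cases hy with ⟨w, rfl⟩ | ⟨w, rfl⟩ | ⟨ky, w, hyw⟩
    · rcases npart_cases hd with ⟨z, rfl⟩ | ⟨δ1, rfl⟩ | ⟨kd, z, hdz⟩
      · exfalso
        ring_nf at hpd
        omega
      · have hN : Odd ((p - 1) / 4) := par_odd hcd
        have D := mk' (4 * δ1 + 1) (4 * ξ1) (4 * w + 1) (2 * (2 * c1 + 2 * ξ1) + 1)
          (2 * ((4 * δ1 + 1) - (2 * b1 + 1) * (4 * w + 1))) (4 * w + 1) 1 rfl hcd hxy hx0 hy0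
          (Or.inl rfl) (by ring) (by ring) (by ring)
        have hpN := data_norm p D
        have hE := case_A p (prime_of_norm (Fact.out) hpN) hpN (ξ := 2 * ξ1) (β := 2 * b1 + 1)
          (w := w) (data_pY p D) (by linear_combination hpd)
        have hE2 := hE.trans (cast4 (b := 1 + 2 * (b1 + ξ1))
          (-ξ1 ^ 2 - 2 * ξ1 - 4 * δ1 ^ 2 - 5 * δ1 - 4 * δ1 * b1 - b1 - 4 * ξ1 * δ1 - 1)
          (by ring))
        obtain ⟨h1, h2⟩ := final_oo p D hN hE2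
        have h4 : (4 : ℤ) ∣ (4 * ξ1) * (4 * w + 1) := ⟨ξ1 * (4 * w + 1), by ring⟩
        refine ⟨⟨fun h => by omega, fun h => by omega, fun _ => h2⟩,
          ⟨fun h => by omega, fun _ => ?_, fun h => absurd h4 h⟩⟩
        rw [h1]
        have e2 : 4 * ξ1 / 4 = ξ1 := by omega
        rw [e2]
      · exfalso
        rw [hdz] at hpd
        obtain ⟨r, hr⟩ : ∃ r : ℤ, r = 2 ^ kd * (4 * z + 1) := ⟨_, rfl⟩
        rw [← hr] at hpd
        ring_nf at hpd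
        omega
    · exfalso
      have h1 : (p : ℤ) = 2 * (8 * ξ1 ^ 2 + (1 + (4 * b1 + 2) ^ 2) * (2 * (4 * w + 1) ^ 2)) := by
        rw [← hxy]
        ring
      omega
    · exfalso
      have h1 : (p : ℤ) = 2 * (8 * ξ1 ^ 2 + (1 + (4 * b1 + 2) ^ 2) *
          (8 * (2 ^ ky * (4 * w + 1)) ^ 2)) := by
        rw [← hxy, hyw]
        ring
      omega

end Pool.Agent.Results.MP_1f3cf9_nt.LucasFourModEight
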